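import Mathlib
import Pool.Agent.Q60.D3C.Stm
import Pool.Agent.Q176.D3.Close

/-!
# Project D3C of helper60: JOB C6 (CLOSE), adapted from helper176's job CLOSE of project D3
-/

set_option autoImplicit false

namespace Pool.Agent.Q177.D3C

open Matrix Pool.Agent.H204R3.CM Pool.Agent.W437.HC Pool.Agent.W437.HD
  Pool.Agent.W437.HP Pool.Agent.W437.HR
open Pool.Agent.Q60.D3
open Pool.Agent.Q176.D3 (simple_transport perOne_pm)

/-- abelian varieties of CM type, isomorphic ones -/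
theorem isCM_transport (X Y : AV) (e : X.H ≃ₗ[ℚ] Y.H) (C : X.T ≃ₗ[ℂ] Y.T)
    (hC : ∀ w, C (X.per w) = Y.per (e w)) (h : IsCM X) : IsCM Y := by
  obtain ⟨S, h1, h2, h3, h4⟩ := h
  let φ : Module.End ℚ X.H ≃ₐ[ℚ] Module.End ℚ Y.H := e.conjAlgEquiv ℚ
  have hφ : ∀ (s : Module.End ℚ X.H) (w : Y.H), φ s w = e (s (e.symm w)) := fun s w => rfl
  refine ⟨S.map (φ : Module.End ℚ X.H →ₐ[ℚ] Module.End ℚ Y.H), ?_, ?_, ?_, ?_⟩
  · rintro _ ⟨s, hs, rfl⟩
    obtain ⟨D, hD⟩ := h1 s hs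
    refine ⟨C.toLinearMap ∘ₗ D ∘ₗ C.symm.toLinearMap, fun w => ?_⟩
    have h5 : C.symm (Y.per w) = X.per (e.symm w) := by
      rw [LinearEquiv.symm_apply_eq, hC, LinearEquiv.apply_symm_apply]
    change C (D (C.symm (Y.per w))) = Y.per (e (s (e.symm w)))
    rw [h5, hD, hC]
  · rintro _ ⟨s, hs, rfl⟩ _ ⟨t, ht, rfl⟩
    have h5 := h2 s hs t ht
    change φ s * φ t = φ t * φ s
    rw [← map_mul, ← map_mul, h5]
  · rintro _ ⟨s, hs, rfl⟩ h5
    have h6 : φ s * φ s = 0 := h5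
    rw [← map_mul] at h6
    have h7 : s * s = 0 := (map_eq_zero_iff φ φ.injective).1 h6
    change φ s = 0
    rw [h3 s hs h7, map_zero]
  · rw [← e.finrank_eq, ← h4]
    exact (Subalgebra.equivMapOfInjective S _ φ.injective).toLinearEquiv.finrank_eq.symm

theorem close (h1 : Pool.Agent.Q60.D3.S_nf) (h2 : Pool.Agent.Q60.D3.S_cmd)
    (h3 : Pool.Agent.Q60.D3C.S_cmd) : Pool.Agent.Q60.D3C.S_close := by
  classical
  intro hmain ι _ X A hiso hs hd κ _ f hf
  obtain ⟨_⟩ := nonempty_fintype ι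
  obtain ⟨_⟩ := nonempty_fintype κ
  obtain ⟨p, hp, hbij⟩ := hiso
  choose g Z e C hZ hpos hC using fun i => h1 (A i)
  have hfr : ∀ i, Module.finrank ℂ (A i).T = g i := fun i => by
    rw [(C i).finrank_eq, Module.finrank_fin_fun]
  choose Ct hCt using hp
  -- the homology
  let al : X.H →ₗ[ℚ] (Fin (NB g) ⊕ Fin (NB g) → ℚ) :=
    ∑ i, (Matrix.mulVecLin (pm g ℚ i)ᵀ) ∘ₗ (e i).toLinearMap ∘ₗ (p i)
  have hal : ∀ v, al v = ∑ i, (pm g ℚ i)ᵀ *ᵥ (e i (p i v)) := by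
    intro v
    simp only [al, LinearMap.sum_apply]
    rfl
  have hpa : ∀ i v, pm g ℚ i *ᵥ al v = e i (p i v) := by
    intro i v
    rw [hal, mulVec_sum, Finset.sum_eq_single i]
    · rw [mulVec_mulVec, pm_same, one_mulVec]
    · intro j _ hj
      rw [mulVec_mulVec, pm_off ℚ (Ne.symm hj), zero_mulVec]
    · intro h
      exact absurd (Finset.mem_univ _) h
  have hinj : Function.Injective al := by
    rw [injective_iff_map_eq_zero]
    intro v hv
    apply hbij.1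
    funext i
    have h3 := hpa i v
    rw [hv, mulVec_zero] at h3
    change p i v = p i 0
    rw [map_zero]
    exact (e i).injective (by rw [← h3, map_zero])
  have hsurj : Function.Surjective al := by
    intro y
    obtain ⟨v, hv⟩ := hbij.2 fun i => (e i).symm (pm g ℚ i *ᵥ y)
    refine ⟨v, ?_⟩
    rw [hal]
    have h3 : ∀ i, e i (p i v) = pm g ℚ i *ᵥ y := by
      intro i
      have h4 : p i v = (e i).symm (pm g ℚ i *ᵥ y) := congrFun hv i
      rw [h4, LinearEquiv.apply_symm_apply]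
    have h5 : ∑ i, (pm g ℚ i)ᵀ *ᵥ (e i (p i v)) = (∑ i, (pm g ℚ i)ᵀ * pm g ℚ i) *ᵥ y := by
      rw [sum_mulVec]
      refine Finset.sum_congr rfl fun i _ => ?_
      rw [h3, mulVec_mulVec]
    rw [h5, pm_tot, one_mulVec]
  let a : X.H ≃ₗ[ℚ] (Fin (NB g) ⊕ Fin (NB g) → ℚ) := LinearEquiv.ofBijective al ⟨hinj, hsurj⟩
  -- the tangent space
  let cl : X.T →ₗ[ℂ] (Fin (NB g) → ℂ) :=
    ∑ i, (Matrix.mulVecLin (qm g ℂ i)ᵀ) ∘ₗ (C i).toLinearMap ∘ₗ (Ct i)
  have hcl : ∀ v, cl v = ∑ i, (qm g ℂ i)ᵀ *ᵥ (C i (Ct i v)) := by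
    intro v
    simp only [cl, LinearMap.sum_apply]
    rfl
  have hper : ∀ w, cl (X.per w) = perOne (bigD ℂ Z) (a w) := by
    intro w
    rw [hcl]
    have h3 : ∀ i, C i (Ct i (X.per w)) = qm g ℂ i *ᵥ perOne (bigD ℂ Z) (a w) := by
      intro i
      rw [hCt, hC, ← perOne_pm Z i (a w)]
      congr 1
      exact (hpa i w).symm
    have h4 : ∑ i, (qm g ℂ i)ᵀ *ᵥ (C i (Ct i (X.per w))) =
        (∑ i, (qm g ℂ i)ᵀ * qm g ℂ i) *ᵥ perOne (bigD ℂ Z) (a w) := by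
      rw [sum_mulVec]
      refine Finset.sum_congr rfl fun i _ => ?_
      rw [h3, mulVec_mulVec]
    rw [h4, qm_tot, one_mulVec]
  have hsurjT : LinearMap.range cl = ⊤ := by
    rw [eq_top_iff, ← (Pi.basisFun ℂ (Fin (NB g))).span_eq, Submodule.span_le]
    rintro _ ⟨j, rfl⟩
    refine ⟨X.per (a.symm (Pi.single (Sum.inl j) 1)), ?_⟩
    rw [hper, LinearEquiv.apply_symm_apply, Pi.basisFun_apply]
    funext k
    change ((Pi.single (Sum.inl j) 1 : Fin (NB g) ⊕ Fin (NB g) → ℚ) (Sum.inl k) : ℂ) +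
      ∑ l, bigD ℂ Z k l * (((Pi.single (Sum.inl j) 1 : Fin (NB g) ⊕ Fin (NB g) → ℚ)
        (Sum.inr l) : ℚ) : ℂ) = _
    have h3 : ∀ l, (Pi.single (Sum.inl j) 1 : Fin (NB g) ⊕ Fin (NB g) → ℚ) (Sum.inr l) = 0 := by
      intro l
      rw [Pi.single_apply, if_neg (by simp)]
    simp only [h3, Rat.cast_zero, mul_zero, Finset.sum_const_zero, add_zero, Pi.single_apply,
      Sum.inl.injEq]
    split_ifs <;> simp
  have hdim : Module.finrank ℂ X.T = Module.finrank ℂ (Fin (NB g) → ℂ) := by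
    have h3 := X.dim
    rw [a.finrank_eq, Module.finrank_fintype_fun_eq_card, Fintype.card_sum, Fintype.card_fin] at h3
    rw [Module.finrank_fin_fun]
    omega
  have hsT : Function.Surjective cl := LinearMap.range_eq_top.1 hsurjT
  have hiT : Function.Injective cl :=
    (LinearMap.injective_iff_surjective_of_finrank_eq_finrank hdim).2 hsT
  let c : X.T ≃ₗ[ℂ] (Fin (NB g) → ℂ) := LinearEquiv.ofBijective cl ⟨hiT, hsT⟩
  refine hmain ι g Z hZ hpos (fun i => simple_transport (A i) (e i) (C i) (hC i) (hs i))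
    (fun i => ?_) (fun i hZi hposi hi => ?_) X a c hper κ f hf
  · rcases hd i with h | h
    · left
      rw [← hfr i]
      exact h
    · right
      exact h3 (A i) (g i) (Z i) (e i) (C i) (hZ i) (hpos i) (hC i) h
  · exact isCM_transport (A i) (Pool.Agent.Q60.D3.ofZ (Z i) hZi hposi) (e i) (C i) (hC i)
      (h2 (A i) (g i) (Z i) (e i) (C i) (hZ i) (hpos i) (hC i) (hs i) hi)

end Pool.Agent.Q177.D3C
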